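import Pool.Agent.X280.HL.Rect

/-! Twisted `L`-functions of hypersurfaces near the edge of absolute convergence. -/

set_option autoImplicit false

namespace Pool.Agent.X280.HL

open Finset MeasureTheory Pool.Agent.Y722.HS Pool.Agent.Y722.LS

/-- The Euler product `∏_p ∏_{j,k} (1 - α_j(p) β_k(p) p^{-s})⁻¹`. -/
noncomputable def LT {b r : ℕ} (α : ℕ → Fin b → ℂ) (β : ℕ → Fin r → ℂ) (s : ℂ) : ℂ :=
  ∏' p : Nat.Primes, ∏ j, ∏ k, (1 - α p j * β p k * ((p : ℕ) : ℂ) ^ (-s))⁻¹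

/-- the twisted system -/
noncomputable def tw {b r : ℕ} (α : ℕ → Fin b → ℂ) (β : ℕ → Fin r → ℂ) (τ : ℝ) :
    ℕ → Fin (b * r) → ℂ := fun p i =>
  α p (finProdFinEquiv.symm i).1 * β p (finProdFinEquiv.symm i).2 * (p : ℂ) ^ (-((τ : ℂ) * Complex.I))

theorem cpow_unit {p : ℕ} (hp : p.Prime) (τ : ℝ) : (p : ℂ) ^ (-((τ : ℂ) * Complex.I)) =
    ((Real.cos (τ * Real.log p) : ℝ) : ℂ) - ((Real.sin (τ * Real.log p) : ℝ) : ℂ) * Complex.I := by
  have hp0 : (p : ℂ) ≠ 0 := by exact_mod_cast hp.ne_zero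
  rw [Complex.cpow_def_of_ne_zero hp0]
  have e : Complex.log (p : ℂ) * -((τ : ℂ) * Complex.I) =
      ((-(τ * Real.log p) : ℝ) : ℂ) * Complex.I := by
    have h : Complex.log (p : ℂ) = ((Real.log p : ℝ) : ℂ) := by
      rw [Complex.ofReal_log (Nat.cast_nonneg p)]
      simp
    rw [h]
    push_cast
    ring
  rw [e, Complex.exp_mul_I, ← Complex.ofReal_cos, ← Complex.ofReal_sin, Real.cos_neg, Real.sin_neg]
  push_cast
  ring

theorem norm_unit {p : ℕ} (hp : p.Prime) (τ : ℝ) : ‖(p : ℂ) ^ (-((τ : ℂ) * Complex.I))‖ = 1 := by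
  have hp0 : (0 : ℝ) < p := by exact_mod_cast hp.pos
  have : ((p : ℝ) : ℂ) = (p : ℂ) := by push_cast; rfl
  rw [← this, Complex.norm_cpow_eq_rpow_re_of_pos hp0]
  simp

theorem re_unit {p : ℕ} (hp : p.Prime) (z : ℂ) (τ : ℝ) :
    (z * (p : ℂ) ^ (-((τ : ℂ) * Complex.I))).re = c1 z (Real.log p) τ := by
  rw [cpow_unit hp]
  unfold c1
  simp only [Complex.mul_re, Complex.sub_re, Complex.sub_im, Complex.ofReal_re, Complex.ofReal_im,
    Complex.mul_im, Complex.I_re, Complex.I_im]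
  ring

section
variable {n b r : ℕ} {α : ℕ → Fin b → ℂ} {β : ℕ → Fin r → ℂ} {τ ε : ℝ}

theorem tw_bound (hα : ∀ p : ℕ, p.Prime → ∀ j, ‖α p j‖ ≤ (p : ℝ) ^ (((n : ℝ) - 1) / 2))
    (hβ : ∀ p : ℕ, p.Prime → ∀ k, ‖β p k‖ ≤ 1) (τ : ℝ) :
    ∀ p : ℕ, p.Prime → ∀ i, ‖tw α β τ p i‖ ≤ (p : ℝ) ^ (((n : ℝ) - 1) / 2) := by
  intro p hp i
  unfold tw
  rw [norm_mul, norm_mul, norm_unit hp, mul_one]
  calc _ ≤ (p : ℝ) ^ (((n : ℝ) - 1) / 2) * 1 :=
        mul_le_mul (hα p hp _) (hβ p hp _) (norm_nonneg _) (by positivity)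
    _ = _ := mul_one _

theorem tw_sum (p : ℕ) : ∑ i, tw α β τ p i =
    (∑ j, α p j) * (∑ k, β p k) * (p : ℂ) ^ (-((τ : ℂ) * Complex.I)) := by
  unfold tw
  rw [← finProdFinEquiv.sum_comp]
  simp only [Equiv.symm_apply_apply]
  rw [Fintype.sum_prod_type, Finset.sum_mul_sum, Finset.sum_mul]
  refine Finset.sum_congr rfl fun j _ => ?_
  rw [Finset.sum_mul]

theorem ss_add (n : ℕ) (ε τ : ℝ) :
    ss n ε + (τ : ℂ) * Complex.I = ((n : ℂ) + 1) / 2 + ε + τ * Complex.I := by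
  unfold ss
  push_cast
  ring

theorem LP_tw : LP (tw α β τ) (ss n ε) = LT α β (((n : ℂ) + 1) / 2 + ε + τ * Complex.I) := by
  unfold LP LT
  refine tprod_congr fun p => ?_
  have hp0 : ((p : ℕ) : ℂ) ≠ 0 := by exact_mod_cast p.2.ne_zero
  rw [← finProdFinEquiv.prod_comp, Fintype.prod_prod_type]
  refine Finset.prod_congr rfl fun j _ => Finset.prod_congr rfl fun k _ => ?_
  unfold tw
  simp only [Equiv.symm_apply_apply]
  have e : ((p : ℕ) : ℂ) ^ (-((τ : ℂ) * Complex.I)) * ((p : ℕ) : ℂ) ^ (-ss n ε) =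
      ((p : ℕ) : ℂ) ^ (-(((n : ℂ) + 1) / 2 + ε + τ * Complex.I)) := by
    rw [← Complex.cpow_add _ _ hp0, ← ss_add]
    congr 1
    ring
  rw [mul_assoc (α p j * β p k), e]

/-- One prime. -/
theorem one_prime {d : ℕ} {c : Mon n d → ℤ} (h : IsFrob b c α)
    (hβ : ∀ p : ℕ, p.Prime → ∀ k, ‖β p k‖ ≤ 1) (hd : 1 ≤ d) (p : ℕ) [Fact p.Prime] (hε : 0 ≤ ε) :
    |((∑ i, tw α β τ p i) * (p : ℂ) ^ (-ss n ε)).re -
      (-1) ^ (n - 1) * (w0 (fun p => ∑ k, β p k) ε τ p * nA p (red p c))| ≤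
      r * bb (fun p c => nA p c) (fun p c => bd p c) b p (red p c) := by
  classical
  have hp := (Fact.out : p.Prime)
  have hp0 : (0 : ℝ) < p := by exact_mod_cast hp.pos
  have hp1 : (1 : ℝ) ≤ p := by exact_mod_cast hp.one_lt.le
  set z : ℂ := ∑ k, β p k with hz
  have hzr : ‖z‖ ≤ r := by
    refine (norm_sum_le _ _).trans ((Finset.sum_le_sum fun k _ => hβ p hp k).trans (le_of_eq ?_))
    simp
  have hpε : (p : ℝ) ^ (-ε) ≤ 1 := Real.rpow_le_one_of_one_le_of_nonpos hp1 (by linarith)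
  have hpε0 : 0 < (p : ℝ) ^ (-ε) := by positivity
  have hsgn : |(-1 : ℝ) ^ (n - 1)| = 1 := by rw [abs_pow]; simp
  have hcp : (p : ℂ) ^ (-ss n ε) = (((p : ℝ) ^ (-(((n : ℝ) + 1) / 2 + ε)) : ℝ) : ℂ) := by
    rw [Complex.ofReal_cpow hp0.le]
    simp [ss]
  have hw : |w0 (fun p => ∑ k, β p k) ε τ p| ≤ r := by
    unfold w0
    rw [abs_mul, abs_of_pos hpε0]
    calc _ ≤ 1 * (r : ℝ) := mul_le_mul hpε ((abs_c1 z _ _).trans hzr) (abs_nonneg _) zero_le_one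
      _ = _ := one_mul _
  by_cases hb : IsBad p (red p c)
  · have h1 : bb (fun p (c : Mon n d → ZMod p) => nA p c) (fun p c => bd p c) b p (red p c) =
        |nA p (red p c)| + b / p := by
      show bd p (red p c) * (|nA p (red p c)| + b / p) = _
      unfold bd; rw [if_pos hb, one_mul]
    rw [h1]
    have h2 : |((∑ i, tw α β τ p i) * (p : ℂ) ^ (-ss n ε)).re| ≤ r * (b / p) := by
      refine (Complex.abs_re_le_norm _).trans ?_
      rw [Finset.sum_mul]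
      refine (norm_sum_le _ _).trans ?_
      refine (Finset.sum_le_sum fun j _ =>
        norm_z (ε := ε) (tw_bound h.bound hβ τ) p hp j).trans ?_
      rw [Finset.sum_const, nsmul_eq_mul, Finset.card_univ, Fintype.card_fin]
      push_cast
      have e : (p : ℝ) ^ (-1 - ε) ≤ 1 / p := by
        rw [one_div, ← Real.rpow_neg_one]
        exact Real.rpow_le_rpow_of_exponent_le hp1 (by linarith)
      calc (b : ℝ) * r * (p : ℝ) ^ (-1 - ε) ≤ b * r * (1 / p) :=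
            mul_le_mul_of_nonneg_left e (by positivity)
        _ = _ := by ring
    have h3 : |(-1) ^ (n - 1) * (w0 (fun p => ∑ k, β p k) ε τ p * nA p (red p c))| ≤
        r * |nA p (red p c)| := by
      rw [abs_mul, hsgn, one_mul, abs_mul]
      exact mul_le_mul_of_nonneg_right hw (abs_nonneg _)
    have h4 := abs_sub (((∑ i, tw α β τ p i) * (p : ℂ) ^ (-ss n ε)).re)
      ((-1) ^ (n - 1) * (w0 (fun p => ∑ k, β p k) ε τ p * nA p (red p c)))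
    linarith
  · have h1 : bb (fun p (c : Mon n d → ZMod p) => nA p c) (fun p c => bd p c) b p (red p c) = 0 := by
      show bd p (red p c) * (|nA p (red p c)| + b / p) = _
      unfold bd; rw [if_neg hb, zero_mul]
    rw [h1, mul_zero]
    apply le_of_eq
    rw [abs_eq_zero, sub_eq_zero, tw_sum, sum_alpha h hd p hb, hcp, ← hz]
    have e1 : (((-1) ^ (n - 1) * aa p (red p c) : ℝ) : ℂ) * z * (p : ℂ) ^ (-((τ : ℂ) * Complex.I)) *
        (((p : ℝ) ^ (-(((n : ℝ) + 1) / 2 + ε)) : ℝ) : ℂ) =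
        (((-1) ^ (n - 1) * aa p (red p c) * (p : ℝ) ^ (-(((n : ℝ) + 1) / 2 + ε)) : ℝ) : ℂ) *
          (z * (p : ℂ) ^ (-((τ : ℂ) * Complex.I))) := by
      push_cast
      ring
    rw [e1, Complex.re_ofReal_mul, re_unit hp, nA, neg_add, Real.rpow_add hp0,
      Real.rpow_neg hp0.le]
    unfold w0
    simp only [← hz]
    field_simp

end

theorem famHS {n d : ℕ} (hn : 1 ≤ n) (hd : 1 ≤ d) :
    Fam (ι := Mon n d) (5 + DD n d) (fun p c => nA p c) (fun p c => bd p c) := by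
  have hD : 0 ≤ DD n d := by unfold DD; positivity
  refine ⟨by linarith, fun p hp => ?_, fun p hp => ?_, fun p c => bd_nonneg p c,
    fun p c => bd_le p c, fun p hp => ?_⟩
  · refine (EM_nA_sq hn hd).trans ?_
    gcongr
    linarith
  · refine (EM_nA hn hd).trans ?_
    gcongr
    linarith
  · refine (EM_bd n d p hd).trans ?_
    gcongr
    linarith

/-- The constant. -/
noncomputable def KT (n d b : ℕ) : ℝ :=
  3 * ((b * (SS + 128)) ^ 2 + 3072 * K1 (Mon n d) (5 + DD n d) + K4 (Mon n d) (5 + DD n d) b)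

theorem K1_nonneg (n d : ℕ) : 0 ≤ K1 (Mon n d) (5 + DD n d) := by
  have hD : 0 ≤ DD n d := by unfold DD; positivity
  have := SS_nonneg
  unfold K1
  positivity

theorem K4_nonneg (n d b : ℕ) : 0 ≤ K4 (Mon n d) (5 + DD n d) b := by
  have hD : 0 ≤ DD n d := by unfold DD; positivity
  have := SS_nonneg
  unfold K4
  positivity

/-- One form. -/
theorem one_form {n d b r : ℕ} {c : Mon n d → ℤ} {α : ℕ → Fin b → ℂ} {β : ℕ → Fin r → ℂ}
    (h : IsFrob b c α) (hβ : ∀ p : ℕ, p.Prime → ∀ k, ‖β p k‖ ≤ 1) (hd : 1 ≤ d) {H y : ℕ}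
    (hH : 2 ≤ H) (hy1 : 1 ≤ y) (hyl : Real.log H ≤ 4 * Real.log (y + 1)) {T ε τ : ℝ}
    (hε : 1 / Real.log H ≤ ε) (hε1 : ε ≤ 1) (hτ : |τ| ≤ T) :
    LT α β (((n : ℂ) + 1) / 2 + ε + τ * Complex.I) ≠ 0 ∧
    Real.log ‖LT α β (((n : ℂ) + 1) / 2 + ε + τ * Complex.I)‖ ^ 2 ≤
      3 * ((r : ℝ) ^ 2 * (b * (SS + 128)) ^ 2 +
        maj (fun p (c : Mon n d → ZMod p) => nA p c) y T (fun p => ∑ k, β p k) c +
        (r : ℝ) ^ 2 * (∑ p ∈ PR y, bb (fun p (c : Mon n d → ZMod p) => nA p c)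
          (fun p c => bd p c) b p (red p c)) ^ 2) := by
  have hlogH : 0 < Real.log H := Real.log_pos (by exact_mod_cast (by omega : 1 < H))
  have hε0 : 0 < ε := lt_of_lt_of_le (by positivity) hε
  have hb := tw_bound h.bound hβ τ
  rw [← LP_tw]
  refine ⟨by rw [LP_eq hε0 hb]; exact Complex.exp_ne_zero _, ?_⟩
  have h1 := log_LP hε0 hε1 hb y hy1
  have h3 : 16 / (ε * Real.log (y + 1)) ≤ 64 := by
    have h4 : 1 ≤ ε * Real.log H := by
      rw [div_le_iff₀ hlogH] at hε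
      exact hε
    have h5 : 1 ≤ 4 * (ε * Real.log (y + 1)) := by
      calc (1 : ℝ) ≤ ε * Real.log H := h4
        _ ≤ ε * (4 * Real.log (y + 1)) := by gcongr
        _ = _ := by ring
    rw [div_le_iff₀ (by linarith)]
    linarith
  set N : ∀ p : ℕ, (Mon n d → ZMod p) → ℝ := fun p c => nA p c with hN
  set Bd : ∀ p : ℕ, (Mon n d → ZMod p) → ℝ := fun p c => bd p c with hBd
  set z : ℕ → ℂ := fun p => ∑ k, β p k with hz
  set Q : ℝ := ∑ p ∈ PR y, bb N Bd b p (red p c) with hQ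
  have hsgn : |(-1 : ℝ) ^ (n - 1)| = 1 := by rw [abs_pow]; simp
  have h2 : |∑ p ∈ PR y, ((∑ i, tw α β τ p i) * (p : ℂ) ^ (-ss n ε)).re -
      (-1) ^ (n - 1) * WW N y (w0 z ε τ) c| ≤ r * Q := by
    unfold WW
    rw [Finset.mul_sum, ← Finset.sum_sub_distrib, hQ, Finset.mul_sum]
    refine (Finset.abs_sum_le_sum_abs _ _).trans (Finset.sum_le_sum fun p hp => ?_)
    have := Fact.mk (mem_PR.mp hp).2
    exact one_prime h hβ hd p hε0.le
  have h4 : |Real.log ‖LP (tw α β τ) (ss n ε)‖| ≤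
      r * (b * (SS + 128)) + |WW N y (w0 z ε τ) c| + r * Q := by
    have h5 := abs_sub_abs_le_abs_sub (Real.log ‖LP (tw α β τ) (ss n ε)‖)
      (∑ p ∈ PR y, ((∑ i, tw α β τ p i) * (p : ℂ) ^ (-ss n ε)).re)
    have h6 := abs_sub_abs_le_abs_sub
      (∑ p ∈ PR y, ((∑ i, tw α β τ p i) * (p : ℂ) ^ (-ss n ε)).re)
      ((-1) ^ (n - 1) * WW N y (w0 z ε τ) c)
    rw [abs_mul ((-1 : ℝ) ^ (n - 1)), hsgn, one_mul] at h6
    have h7 : 2 * ((b * r : ℕ) : ℝ) * (16 / (ε * Real.log (y + 1))) ≤ 2 * ((b * r : ℕ) : ℝ) * 64 := by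
      gcongr
    push_cast at h1 h7
    nlinarith
  have hm := rect_sup (N := N) (y := y) (z := z) T c hε0.le hε1 hτ
  have hr0 : (0 : ℝ) ≤ r := Nat.cast_nonneg r
  have hQ0 : 0 ≤ Q := Finset.sum_nonneg fun p _ =>
    mul_nonneg (bd_nonneg p _) (by positivity)
  have hS := SS_nonneg
  set X := (r : ℝ) * (b * (SS + 128)) with hX
  set W := |WW N y (w0 z ε τ) c| with hW
  have h8 : Real.log ‖LP (tw α β τ) (ss n ε)‖ ^ 2 ≤ (X + W + r * Q) ^ 2 := by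
    rw [← sq_abs]
    exact pow_le_pow_left₀ (abs_nonneg _) h4 2
  have h9 : (X + W + r * Q) ^ 2 ≤ 3 * (X ^ 2 + W ^ 2 + (r * Q) ^ 2) := by
    nlinarith [sq_nonneg (X - W), sq_nonneg (X - r * Q), sq_nonneg (W - r * Q)]
  have h10 : W ^ 2 ≤ maj N y T z c := by rw [hW, sq_abs]; exact hm
  have h11 : X ^ 2 = (r : ℝ) ^ 2 * (b * (SS + 128)) ^ 2 := by rw [hX, mul_pow]
  have h12 : (r * Q) ^ 2 = (r : ℝ) ^ 2 * Q ^ 2 := mul_pow _ _ _
  rw [h11, h12] at h9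
  linarith

/-- **Mean square of the supremum over a rectangle.** -/
theorem mean_square (n d b : ℕ) (hn : 1 ≤ n) (hd : 1 ≤ d) (r : ℕ) (β : ℕ → Fin r → ℂ)
    (hβ : ∀ p : ℕ, p.Prime → ∀ k, ‖β p k‖ ≤ 1) (H : ℕ) (hH : 2 ≤ H) (T : ℝ) (hT : 0 ≤ T)
    (S : Finset (Mon n d → ℤ)) (hS : S ⊆ box (Mon n d) H) (α : (Mon n d → ℤ) → ℕ → Fin b → ℂ)
    (ε τ : (Mon n d → ℤ) → ℝ) (hα : ∀ c ∈ S, IsFrob b c (α c))
    (hε : ∀ c ∈ S, 1 / Real.log H ≤ ε c ∧ ε c ≤ 1) (hτ : ∀ c ∈ S, |τ c| ≤ T) :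
    (∀ c ∈ S, LT (α c) β (((n : ℂ) + 1) / 2 + ε c + τ c * Complex.I) ≠ 0) ∧
    ∑ c ∈ S, Real.log ‖LT (α c) β (((n : ℂ) + 1) / 2 + ε c + τ c * Complex.I)‖ ^ 2 ≤
      KT n d b * r ^ 2 * (1 + T) * (box (Mon n d) H).card := by
  obtain ⟨y, hy1, hy4, hyl⟩ := exists_y H hH
  have hF := famHS hn hd
  set N : ∀ p : ℕ, (Mon n d → ZMod p) → ℝ := fun p c => nA p c with hN
  set Bd : ∀ p : ℕ, (Mon n d → ZMod p) → ℝ := fun p c => bd p c with hBd
  set z : ℕ → ℂ := fun p => ∑ k, β p k with hz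
  have hzr : ∀ p ∈ PR y, ‖z p‖ ≤ r := fun p hp => by
    refine (norm_sum_le _ _).trans ((Finset.sum_le_sum fun k _ =>
      hβ p (mem_PR.1 hp).2 k).trans (le_of_eq ?_))
    simp
  have hone := fun c (hc : c ∈ S) => one_form (hα c hc) hβ hd hH hy1 hyl (hε c hc).1 (hε c hc).2
    (hτ c hc)
  refine ⟨fun c hc => (hone c hc).1, ?_⟩
  set M : (Mon n d → ℤ) → ℝ := fun c => 3 * ((r : ℝ) ^ 2 * (b * (SS + 128)) ^ 2 +
    maj N y T z c + (r : ℝ) ^ 2 * (∑ p ∈ PR y, bb N Bd b p (red p c)) ^ 2) with hM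
  have hM0 : ∀ c, 0 ≤ M c := fun c => by
    have h1 : 0 ≤ maj N y T z c :=
      (sq_nonneg _).trans (rect_sup (N := N) (y := y) (z := z) (ε := 0) (τ := 0) T c le_rfl
        zero_le_one (by rw [abs_zero]; exact hT))
    simp only [hM]
    positivity
  have h1 : ∑ c ∈ S, Real.log ‖LT (α c) β (((n : ℂ) + 1) / 2 + ε c + τ c * Complex.I)‖ ^ 2 ≤
      ∑ c ∈ box (Mon n d) H, M c :=
    (Finset.sum_le_sum fun c hc => (hone c hc).2).trans
      (Finset.sum_le_sum_of_subset_of_nonneg hS fun c _ _ => hM0 c)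
  have h2 : EB H M ≤ 3 * ((r : ℝ) ^ 2 * (b * (SS + 128)) ^ 2 +
      768 * r ^ 2 * (1 + 4 * T) * K1 (Mon n d) (5 + DD n d) +
      (r : ℝ) ^ 2 * K4 (Mon n d) (5 + DD n d) b) := by
    have e1 := EB_maj (z := z) hF H hy4 hT (r := r) (Nat.cast_nonneg r) hzr
    have e2 := hF.EB_bb_sq (β := (b : ℝ)) (Nat.cast_nonneg b) H y hy4
    have e3 : EB H M = 3 * ((r : ℝ) ^ 2 * (b * (SS + 128)) ^ 2 + EB H (fun c => maj N y T z c) +
        (r : ℝ) ^ 2 * EB H (fun c => (∑ p ∈ PR y, bb N Bd b p (red p c)) ^ 2)) := by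
      rw [hM, EB_mul, EB_add, EB_add, EB_const, EB_mul]
    rw [e3]
    have e4 : (r : ℝ) ^ 2 * EB H (fun c => (∑ p ∈ PR y, bb N Bd b p (red p c)) ^ 2) ≤
        (r : ℝ) ^ 2 * K4 (Mon n d) (5 + DD n d) b := mul_le_mul_of_nonneg_left e2 (by positivity)
    linarith
  have h3 : ∑ c ∈ box (Mon n d) H, M c = EB H M * (box (Mon n d) H).card := by
    unfold EB
    rw [card_box]
    have : (0 : ℝ) < (2 * H + 1 : ℝ) ^ Fintype.card (Mon n d) := by positivity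
    field_simp
  have h4 := K1_nonneg n d
  have h5 := K4_nonneg n d b
  have h6 : 3 * ((r : ℝ) ^ 2 * (b * (SS + 128)) ^ 2 +
      768 * r ^ 2 * (1 + 4 * T) * K1 (Mon n d) (5 + DD n d) +
      (r : ℝ) ^ 2 * K4 (Mon n d) (5 + DD n d) b) ≤ KT n d b * r ^ 2 * (1 + T) := by
    unfold KT
    have hr : (0 : ℝ) ≤ (r : ℝ) ^ 2 := by positivity
    have k1 : 0 ≤ (r : ℝ) ^ 2 * (b * (SS + 128)) ^ 2 * T := by positivity
    have k2 : 0 ≤ (r : ℝ) ^ 2 * K1 (Mon n d) (5 + DD n d) := by positivity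
    have k3 : 0 ≤ (r : ℝ) ^ 2 * K4 (Mon n d) (5 + DD n d) b * T := by positivity
    nlinarith
  rw [h3] at h1
  refine h1.trans (mul_le_mul_of_nonneg_right (h2.trans h6) (Nat.cast_nonneg _))

/-- **All but a proportion `δ`.** -/
theorem almost_all (n d b : ℕ) (hn : 1 ≤ n) (hd : 1 ≤ d) (r : ℕ) (β : ℕ → Fin r → ℂ)
    (hβ : ∀ p : ℕ, p.Prime → ∀ k, ‖β p k‖ ≤ 1) (H : ℕ) (hH : 2 ≤ H) (T : ℝ) (hT : 0 ≤ T)
    (δ : ℝ) (hδ : 0 < δ) :
    ∃ E ⊆ box (Mon n d) H, (E.card : ℝ) ≤ δ * (box (Mon n d) H).card ∧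
      ∀ c ∈ box (Mon n d) H \ E, ∀ α : ℕ → Fin b → ℂ, IsFrob b c α → ∀ ε τ : ℝ,
        1 / Real.log H ≤ ε → ε ≤ 1 → |τ| ≤ T →
        LT α β (((n : ℂ) + 1) / 2 + ε + τ * Complex.I) ≠ 0 ∧
        Real.log ‖LT α β (((n : ℂ) + 1) / 2 + ε + τ * Complex.I)‖ ^ 2 ≤
          KT n d b * r ^ 2 * (1 + T) / δ := by
  classical
  set V : ℝ := KT n d b * r ^ 2 * (1 + T) / δ with hV
  set P : (Mon n d → ℤ) → (ℕ → Fin b → ℂ) × ℝ × ℝ → Prop := fun c x =>
    IsFrob b c x.1 ∧ (1 / Real.log H ≤ x.2.1 ∧ x.2.1 ≤ 1) ∧ |x.2.2| ≤ T ∧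
      V < Real.log ‖LT x.1 β (((n : ℂ) + 1) / 2 + x.2.1 + x.2.2 * Complex.I)‖ ^ 2 with hP
  set E : Finset (Mon n d → ℤ) := (box (Mon n d) H).filter fun c => ∃ x, P c x with hE
  have hch : ∀ c, ∃ x, c ∈ E → P c x := fun c => by
    by_cases hc : c ∈ E
    · obtain ⟨x, hx⟩ := (Finset.mem_filter.1 hc).2
      exact ⟨x, fun _ => hx⟩
    · exact ⟨(fun _ _ => 0, 0, 0), fun h => absurd h hc⟩
  choose x hx using hch
  have h1 := mean_square n d b hn hd r β hβ H hH T hT E (Finset.filter_subset _ _)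
    (fun c => (x c).1) (fun c => (x c).2.1) (fun c => (x c).2.2) (fun c hc => (hx c hc).1)
    (fun c hc => (hx c hc).2.1) (fun c hc => (hx c hc).2.2.1)
  refine ⟨E, Finset.filter_subset _ _, ?_, ?_⟩
  · by_contra hcon
    push Not at hcon
    have hcard : (0 : ℝ) < E.card := by
      refine lt_of_le_of_lt ?_ hcon
      positivity
    have hne : E.Nonempty := by
      rw [← Finset.card_pos]
      exact_mod_cast hcard
    have h2 : (E.card : ℝ) * V < ∑ c ∈ E, Real.log ‖LT (x c).1 β (((n : ℂ) + 1) / 2 + (x c).2.1 +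
        (x c).2.2 * Complex.I)‖ ^ 2 := by
      have := Finset.sum_lt_sum_of_nonempty hne (f := fun _ => V) fun c hc => (hx c hc).2.2.2
      rwa [Finset.sum_const, nsmul_eq_mul] at this
    have h3 := h2.trans_le h1.2
    have hK : 0 ≤ KT n d b * r ^ 2 * (1 + T) := by
      have h4 := K1_nonneg n d
      have h5 := K4_nonneg n d b
      unfold KT
      positivity
    have h4 : δ * V = KT n d b * r ^ 2 * (1 + T) := by
      rw [hV]; field_simp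
    have hV0 : 0 ≤ V := by rw [hV]; positivity
    have h5 : (δ * (box (Mon n d) H).card) * V ≤ E.card * V :=
      mul_le_mul_of_nonneg_right hcon.le hV0
    have h6 : (δ * (box (Mon n d) H).card) * V = KT n d b * r ^ 2 * (1 + T) *
        (box (Mon n d) H).card := by rw [← h4]; ring
    linarith
  · intro c hc α hα ε τ hε hε1 hτ
    obtain ⟨hc1, hc2⟩ := Finset.mem_sdiff.1 hc
    obtain ⟨y, hy1, hy4, hyl⟩ := exists_y H hH
    refine ⟨(one_form hα hβ hd hH hy1 hyl hε hε1 hτ).1, ?_⟩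
    by_contra hcon
    push Not at hcon
    exact hc2 (Finset.mem_filter.2 ⟨hc1, (α, ε, τ), hα, ⟨hε, hε1⟩, hτ, hcon⟩)

end Pool.Agent.X280.HL
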