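import Pool.Agent.X280.HL.Sup

/-! The supremum over a rectangle. -/

set_option autoImplicit false

namespace Pool.Agent.X280.HL

open Finset MeasureTheory Pool.Agent.Y722.HS Pool.Agent.Y722.LS

/-- real part of `z e^{-itl}` -/
noncomputable def c1 (z : ℂ) (l t : ℝ) : ℝ := z.re * Real.cos (t * l) + z.im * Real.sin (t * l)

/-- imaginary part of `z e^{-itl}` -/
noncomputable def s1 (z : ℂ) (l t : ℝ) : ℝ := z.im * Real.cos (t * l) - z.re * Real.sin (t * l)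

theorem cs_sq (z : ℂ) (l t : ℝ) : c1 z l t ^ 2 + s1 z l t ^ 2 = ‖z‖ ^ 2 := by
  rw [Complex.sq_norm, Complex.normSq_apply]
  unfold c1 s1
  have := Real.cos_sq_add_sin_sq (t * l)
  linear_combination (z.re * z.re + z.im * z.im) * this

theorem abs_c1 (z : ℂ) (l t : ℝ) : |c1 z l t| ≤ ‖z‖ := by
  have h := cs_sq z l t
  refine abs_le_of_sq_le_sq ?_ (norm_nonneg _)
  nlinarith [sq_nonneg (s1 z l t)]

theorem abs_s1 (z : ℂ) (l t : ℝ) : |s1 z l t| ≤ ‖z‖ := by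
  have h := cs_sq z l t
  refine abs_le_of_sq_le_sq ?_ (norm_nonneg _)
  nlinarith [sq_nonneg (c1 z l t)]

theorem deriv_c1 (z : ℂ) (l t : ℝ) : HasDerivAt (fun t => c1 z l t) (l * s1 z l t) t := by
  unfold c1 s1
  have h0 : HasDerivAt (fun t : ℝ => t * l) l t := by simpa using (hasDerivAt_id t).mul_const l
  have h1 := ((Real.hasDerivAt_cos (t * l)).comp t h0).const_mul z.re
  have h2 := ((Real.hasDerivAt_sin (t * l)).comp t h0).const_mul z.im
  refine (h1.add h2).congr_deriv ?_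
  ring

theorem cont_c1 (z : ℂ) (l : ℝ) : Continuous (c1 z l) := by
  unfold c1
  fun_prop

theorem cont_s1 (z : ℂ) (l : ℝ) : Continuous (s1 z l) := by
  unfold s1
  fun_prop

theorem cont_pow {p : ℕ} (hp : p.Prime) : Continuous fun u : ℝ => (p : ℝ) ^ (-u) := by
  have hp0 : (0 : ℝ) < p := by exact_mod_cast hp.pos
  exact Real.continuous_const_rpow hp0.ne' |>.comp continuous_neg

theorem deriv_pow {p : ℕ} (hp : p.Prime) (u : ℝ) :
    HasDerivAt (fun u : ℝ => (p : ℝ) ^ (-u)) (-Real.log p * (p : ℝ) ^ (-u)) u := by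
  have hp0 : (0 : ℝ) < p := by exact_mod_cast hp.pos
  have h1 : HasDerivAt (fun u : ℝ => (p : ℝ) ^ (-u)) (Real.log p * (-1) * (p : ℝ) ^ (-u)) u :=
    (hasDerivAt_neg u).const_rpow hp0
  refine h1.congr_deriv ?_
  ring

section
variable (z : ℕ → ℂ)

noncomputable def w0 (u t : ℝ) (p : ℕ) : ℝ := (p : ℝ) ^ (-u) * c1 (z p) (Real.log p) t
noncomputable def w1 (u t : ℝ) (p : ℕ) : ℝ :=
  (p : ℝ) ^ (-u) * (Real.log p * s1 (z p) (Real.log p) t)
noncomputable def v0 (u t : ℝ) (p : ℕ) : ℝ :=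
  -Real.log p * (p : ℝ) ^ (-u) * c1 (z p) (Real.log p) t
noncomputable def v1 (u t : ℝ) (p : ℕ) : ℝ :=
  -Real.log p * (p : ℝ) ^ (-u) * (Real.log p * s1 (z p) (Real.log p) t)

variable {z} {y : ℕ}

theorem log_sizes {p : ℕ} (hp : p.Prime) {u : ℝ} (hu : 0 ≤ u) :
    0 ≤ Real.log p ∧ (p : ℝ) ^ (-u) ≤ 1 ∧ 0 < (p : ℝ) ^ (-u) ∧
      1 ≤ 16 * (4 * (p : ℝ) ^ ((1 : ℝ) / 4)) ∧ Real.log p ≤ 16 * (4 * (p : ℝ) ^ ((1 : ℝ) / 4)) ∧
      Real.log p ^ 2 ≤ 16 * (4 * (p : ℝ) ^ ((1 : ℝ) / 4)) := by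
  have hp1 : (1 : ℝ) ≤ p := by exact_mod_cast hp.one_lt.le
  have hp0 : (0 : ℝ) < p := by linarith
  have hl : 0 ≤ Real.log p := Real.log_nonneg hp1
  have h2 : (1 : ℝ) ≤ (p : ℝ) ^ ((1 : ℝ) / 4) := Real.one_le_rpow hp1 (by norm_num)
  have h3 : (1 : ℝ) ≤ (p : ℝ) ^ ((1 : ℝ) / 8) := Real.one_le_rpow hp1 (by norm_num)
  have h4 : Real.log p ≤ 8 * (p : ℝ) ^ ((1 : ℝ) / 8) := by
    have := Real.log_le_rpow_div hp0.le (by norm_num : (0 : ℝ) < 1 / 8)
    linarith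
  have h5 : ((p : ℝ) ^ ((1 : ℝ) / 8)) ^ 2 = (p : ℝ) ^ ((1 : ℝ) / 4) := by
    rw [← Real.rpow_natCast, ← Real.rpow_mul hp0.le]
    norm_num
  refine ⟨hl, Real.rpow_le_one_of_one_le_of_nonpos hp1 (by linarith), by positivity,
    by linarith, ?_, ?_⟩
  · nlinarith
  · nlinarith

theorem bds {r : ℝ} (hz : ∀ p ∈ PR y, ‖z p‖ ≤ r) {p : ℕ} (hp : p ∈ PR y) {u : ℝ} (hu : 0 ≤ u)
    (t : ℝ) :
    |w0 z u t p| ≤ (16 * r) * (4 * (p : ℝ) ^ ((1 : ℝ) / 4)) ∧
    |w1 z u t p| ≤ (16 * r) * (4 * (p : ℝ) ^ ((1 : ℝ) / 4)) ∧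
    |v0 z u t p| ≤ (16 * r) * (4 * (p : ℝ) ^ ((1 : ℝ) / 4)) ∧
    |v1 z u t p| ≤ (16 * r) * (4 * (p : ℝ) ^ ((1 : ℝ) / 4)) := by
  obtain ⟨h1, h2, h3, h4, h5, h6⟩ := log_sizes (mem_PR.1 hp).2 hu
  have hr := hz p hp
  have hr0 : 0 ≤ r := (norm_nonneg _).trans hr
  have hc := (abs_c1 (z p) (Real.log p) t).trans hr
  have hs := (abs_s1 (z p) (Real.log p) t).trans hr
  set L := Real.log p with hL
  set P := (p : ℝ) ^ (-u) with hP
  set Q := (p : ℝ) ^ ((1 : ℝ) / 4) with hQ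
  set c := |c1 (z p) L t| with hcd
  set s := |s1 (z p) L t| with hsd
  have hc0 : 0 ≤ c := abs_nonneg _
  have hs0 : 0 ≤ s := abs_nonneg _
  have k1 : |w0 z u t p| = P * c := by
    unfold w0
    rw [abs_mul, abs_of_pos h3]
  have k2 : |w1 z u t p| = P * (L * s) := by
    unfold w1
    rw [abs_mul, abs_of_pos h3, abs_mul, abs_of_nonneg h1]
  have k3 : |v0 z u t p| = L * P * c := by
    unfold v0
    rw [abs_mul, abs_mul, abs_of_pos h3, abs_neg, abs_of_nonneg h1]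
  have k4 : |v1 z u t p| = L * P * (L * s) := by
    unfold v1
    rw [abs_mul, abs_mul, abs_of_pos h3, abs_neg, abs_of_nonneg h1, abs_mul, abs_of_nonneg h1]
  rw [k1, k2, k3, k4]
  refine ⟨?_, ?_, ?_, ?_⟩
  · calc P * c ≤ 1 * r := mul_le_mul h2 hc hc0 zero_le_one
      _ ≤ r * (16 * (4 * Q)) := by nlinarith
      _ = _ := by ring
  · calc P * (L * s) ≤ 1 * (L * r) :=
          mul_le_mul h2 (mul_le_mul_of_nonneg_left hs h1) (mul_nonneg h1 hs0) zero_le_one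
      _ = r * L := by ring
      _ ≤ r * (16 * (4 * Q)) := mul_le_mul_of_nonneg_left h5 hr0
      _ = _ := by ring
  · calc L * P * c ≤ L * 1 * r :=
          mul_le_mul (mul_le_mul_of_nonneg_left h2 h1) hc hc0 (by linarith)
      _ = r * L := by ring
      _ ≤ r * (16 * (4 * Q)) := mul_le_mul_of_nonneg_left h5 hr0
      _ = _ := by ring
  · calc L * P * (L * s) ≤ L * 1 * (L * r) :=
          mul_le_mul (mul_le_mul_of_nonneg_left h2 h1) (mul_le_mul_of_nonneg_left hs h1)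
            (mul_nonneg h1 hs0) (by linarith)
      _ = r * L ^ 2 := by ring
      _ ≤ r * (16 * (4 * Q)) := mul_le_mul_of_nonneg_left h6 hr0
      _ = _ := by ring

theorem conts {p : ℕ} (hp : p ∈ PR y) :
    (Continuous fun x : ℝ × ℝ => w0 z x.1 x.2 p) ∧ (Continuous fun x : ℝ × ℝ => w1 z x.1 x.2 p) ∧
    (Continuous fun x : ℝ × ℝ => v0 z x.1 x.2 p) ∧ (Continuous fun x : ℝ × ℝ => v1 z x.1 x.2 p) := by
  have h1 := (cont_pow (mem_PR.1 hp).2).comp (continuous_fst (X := ℝ) (Y := ℝ))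
  have h2 := (cont_c1 (z p) (Real.log p)).comp (continuous_snd (X := ℝ) (Y := ℝ))
  have h3 := (cont_s1 (z p) (Real.log p)).comp (continuous_snd (X := ℝ) (Y := ℝ))
  refine ⟨?_, ?_, ?_, ?_⟩
  · exact h1.mul h2
  · exact h1.mul (continuous_const.mul h3)
  · exact (continuous_const.mul h1).mul h2
  · exact (continuous_const.mul h1).mul (continuous_const.mul h3)

end

section
variable {ι : Type} [Fintype ι] [DecidableEq ι] {A : ℝ} {N B : ∀ p : ℕ, (ι → ZMod p) → ℝ}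
  {z : ℕ → ℂ} {y : ℕ}

/-- the majorant -/
noncomputable def maj (N : ∀ p : ℕ, (ι → ZMod p) → ℝ) (y : ℕ) (T : ℝ) (z : ℕ → ℂ) (c : ι → ℤ) : ℝ :=
  inn N y T (w0 z 0) (w1 z 0) c +
    ∫ u in (0 : ℝ)..1, (inn N y T (w0 z u) (w1 z u) c + inn N y T (v0 z u) (v1 z u) c)

theorem cont_inn (T : ℝ) (w w' : ℝ → ℝ → ℕ → ℝ)
    (hw : ∀ p ∈ PR y, Continuous fun x : ℝ × ℝ => w x.1 x.2 p)
    (hw' : ∀ p ∈ PR y, Continuous fun x : ℝ × ℝ => w' x.1 x.2 p) (c : ι → ℤ) :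
    Continuous fun u => inn N y T (w u) (w' u) c := by
  unfold inn
  refine Continuous.add ?_ ?_
  · refine (WW_cont (N := N) y (fun u => w u 0) (fun p hp => ?_) c).pow 2
    exact (hw p hp).comp (continuous_id.prodMk continuous_const)
  · refine intervalIntegral.continuous_parametric_intervalIntegral_of_continuous' ?_ _ _
    have h1 := (WW_cont (N := N) y (fun x : ℝ × ℝ => w x.1 x.2) hw c).pow 2
    have h2 := (WW_cont (N := N) y (fun x : ℝ × ℝ => w' x.1 x.2) hw' c).pow 2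
    exact h1.add h2

theorem sect {f : ℝ → ℝ → ℕ → ℝ} (h : ∀ p ∈ PR y, Continuous fun x : ℝ × ℝ => f x.1 x.2 p) (u : ℝ) :
    ∀ p ∈ PR y, Continuous fun t => f u t p := fun p hp =>
  (h p hp).comp (continuous_const.prodMk continuous_id)

theorem rect_sup (T : ℝ) (c : ι → ℤ) {ε τ : ℝ} (h0 : 0 ≤ ε) (h1 : ε ≤ 1) (hτ : |τ| ≤ T) :
    WW N y (w0 z ε τ) c ^ 2 ≤ maj N y T z c := by
  have k0 := fun p (hp : p ∈ PR y) => (conts (z := z) hp).1
  have k1 := fun p (hp : p ∈ PR y) => (conts (z := z) hp).2.1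
  have k2 := fun p (hp : p ∈ PR y) => (conts (z := z) hp).2.2.1
  have k3 := fun p (hp : p ∈ PR y) => (conts (z := z) hp).2.2.2
  have hA : ∀ u, WW N y (w0 z u τ) c ^ 2 ≤ inn N y T (w0 z u) (w1 z u) c := fun u => by
    refine inn_sup y hτ (w0 z u) (w1 z u) (fun p hp t => ?_) (sect k1 u) c
    exact (deriv_c1 (z p) (Real.log p) t).const_mul _
  have hB : ∀ u, WW N y (v0 z u τ) c ^ 2 ≤ inn N y T (v0 z u) (v1 z u) c := fun u => by
    refine inn_sup y hτ (v0 z u) (v1 z u) (fun p hp t => ?_) (sect k3 u) c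
    exact (deriv_c1 (z p) (Real.log p) t).const_mul _
  have hd : ∀ u, HasDerivAt (fun u => WW N y (w0 z u τ) c) (WW N y (v0 z u τ) c) u := fun u => by
    refine WW_deriv y (fun u => w0 z u τ) (fun u => v0 z u τ) (fun p hp u => ?_) c u
    exact (deriv_pow (mem_PR.1 hp).2 u).mul_const _
  have hc : Continuous fun u => WW N y (v0 z u τ) c :=
    WW_cont (N := N) y (fun u => v0 z u τ)
      (fun p hp => (k2 p hp).comp (continuous_id.prodMk continuous_const)) c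
  have hc0 : Continuous fun u => WW N y (w0 z u τ) c :=
    WW_cont (N := N) y (fun u => w0 z u τ)
      (fun p hp => (k0 p hp).comp (continuous_id.prodMk continuous_const)) c
  have e1 := sup_one hd hc (a := 0) (b := 1) (x₀ := 0) (x := ε) le_rfl zero_le_one h0 h1
  have e2 : ∫ u in (0 : ℝ)..1, (WW N y (w0 z u τ) c ^ 2 + WW N y (v0 z u τ) c ^ 2) ≤
      ∫ u in (0 : ℝ)..1, (inn N y T (w0 z u) (w1 z u) c + inn N y T (v0 z u) (v1 z u) c) := by
    refine intervalIntegral.integral_mono_on zero_le_one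
      (((hc0.pow 2).add (hc.pow 2)).intervalIntegrable _ _)
      (((cont_inn T _ _ k0 k1 c).add (cont_inn T _ _ k2 k3 c)).intervalIntegrable _ _) ?_
    intro u _
    exact add_le_add (hA u) (hB u)
  unfold maj
  linarith [hA 0]

theorem EB_maj (h : Fam A N B) (H : ℕ) (hy : y ^ 4 ≤ H) {T : ℝ} (hT : 0 ≤ T) {r : ℝ} (hr : 0 ≤ r)
    (hz : ∀ p ∈ PR y, ‖z p‖ ≤ r) :
    EB H (fun c : ι → ℤ => maj N y T z c) ≤ 768 * r ^ 2 * (1 + 4 * T) * K1 ι A := by
  have k0 := fun p (hp : p ∈ PR y) => (conts (z := z) hp).1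
  have k1 := fun p (hp : p ∈ PR y) => (conts (z := z) hp).2.1
  have k2 := fun p (hp : p ∈ PR y) => (conts (z := z) hp).2.2.1
  have k3 := fun p (hp : p ∈ PR y) => (conts (z := z) hp).2.2.2
  have hA : ∀ u, 0 ≤ u → EB H (fun c : ι → ℤ => inn N y T (w0 z u) (w1 z u) c) ≤
      (1 + 4 * T) * ((16 * r) ^ 2 * K1 ι A) := fun u hu =>
    EB_inn h H y hy hT (w0 z u) (w1 z u) (by positivity) (fun t p hp => (bds hz hp hu t).1)
      (fun t p hp => (bds hz hp hu t).2.1) (sect k0 u) (sect k1 u)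
  have hB : ∀ u, 0 ≤ u → EB H (fun c : ι → ℤ => inn N y T (v0 z u) (v1 z u) c) ≤
      (1 + 4 * T) * ((16 * r) ^ 2 * K1 ι A) := fun u hu =>
    EB_inn h H y hy hT (v0 z u) (v1 z u) (by positivity) (fun t p hp => (bds hz hp hu t).2.2.1)
      (fun t p hp => (bds hz hp hu t).2.2.2) (sect k2 u) (sect k3 u)
  unfold maj
  rw [EB_add]
  have h2 := EB_integral_le H (a := 0) (b := 1) (K := 2 * ((1 + 4 * T) * ((16 * r) ^ 2 * K1 ι A)))
    zero_le_one
    (fun c u => inn N y T (w0 z u) (w1 z u) c + inn N y T (v0 z u) (v1 z u) c)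
    (fun c => (cont_inn T _ _ k0 k1 c).add (cont_inn T _ _ k2 k3 c)) (fun u hu _ => by
      rw [EB_add]
      linarith [hA u hu, hB u hu])
  have h1 := hA 0 le_rfl
  have e : 768 * r ^ 2 * (1 + 4 * T) * K1 ι A = 3 * ((1 + 4 * T) * ((16 * r) ^ 2 * K1 ι A)) := by
    ring
  rw [e]
  linarith

end

end Pool.Agent.X280.HL
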