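import Pool.Agent.Y722.LS.Sup
import Pool.Agent.Y722.HS.Main

/-! Suprema over rectangles of weighted sums over the primes, in mean square. -/

set_option autoImplicit false

namespace Pool.Agent.X280.HL

open Finset MeasureTheory Pool.Agent.Y722.HS Pool.Agent.Y722.LS

theorem sup_one {f g : ℝ → ℝ} (hf : ∀ u, HasDerivAt f (g u) u) (hg : Continuous g)
    {a b x₀ x : ℝ} (h1 : a ≤ x₀) (h2 : x₀ ≤ b) (h3 : a ≤ x) (h4 : x ≤ b) :
    f x ^ 2 ≤ f x₀ ^ 2 + ∫ u in a..b, (f u ^ 2 + g u ^ 2) := by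
  have hfc : Continuous f := continuous_iff_continuousAt.2 fun u => (hf u).continuousAt
  have hd : ∀ u : ℝ, HasDerivAt (fun u => f u ^ 2) (2 * f u * g u) u := by
    intro u
    have := (hf u).pow 2
    refine this.congr_deriv ?_
    simp
  have hc : Continuous fun u => 2 * f u * g u := (continuous_const.mul hfc).mul hg
  have hc2 : Continuous fun u => f u ^ 2 + g u ^ 2 := (hfc.pow 2).add (hg.pow 2)
  have e1 : ∫ u in x₀..x, 2 * f u * g u = f x ^ 2 - f x₀ ^ 2 :=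
    intervalIntegral.integral_eq_sub_of_hasDerivAt (fun u _ => hd u) (hc.intervalIntegrable _ _)
  have e2 : ‖∫ u in x₀..x, 2 * f u * g u‖ ≤ |∫ u in x₀..x, (f u ^ 2 + g u ^ 2)| := by
    refine intervalIntegral.norm_integral_le_abs_of_norm_le
      (Filter.Eventually.of_forall fun u => ?_) (hc2.intervalIntegrable _ _)
    rw [Real.norm_eq_abs, abs_le]
    constructor
    · nlinarith [sq_nonneg (f u + g u)]
    · nlinarith [sq_nonneg (f u - g u)]
  have hab : a ≤ b := h1.trans h2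
  have e3 : |∫ u in x₀..x, (f u ^ 2 + g u ^ 2)| ≤ |∫ u in a..b, (f u ^ 2 + g u ^ 2)| := by
    refine intervalIntegral.abs_integral_mono_interval ?_
      (Filter.Eventually.of_forall fun u => ?_) (hc2.intervalIntegrable _ _)
    · rw [Set.uIoc_of_le hab]
      intro u hu
      rcases le_total x₀ x with h | h
      · rw [Set.uIoc_of_le h] at hu
        exact ⟨lt_of_le_of_lt h1 hu.1, hu.2.trans h4⟩
      · rw [Set.uIoc_of_ge h] at hu
        exact ⟨lt_of_le_of_lt h3 hu.1, hu.2.trans h2⟩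
    · simp only [Pi.zero_apply]
      positivity
  have e4 : 0 ≤ ∫ u in a..b, (f u ^ 2 + g u ^ 2) :=
    intervalIntegral.integral_nonneg hab fun u _ => by positivity
  rw [abs_of_nonneg e4] at e3
  rw [e1] at e2
  have e5 := (le_abs_self (f x ^ 2 - f x₀ ^ 2)).trans (e2.trans e3)
  linarith

section
variable {ι : Type} [Fintype ι] [DecidableEq ι] {A : ℝ} {N B : ∀ p : ℕ, (ι → ZMod p) → ℝ}

theorem EB_integral (H : ℕ) (a b : ℝ) (f : (ι → ℤ) → ℝ → ℝ) (hf : ∀ c, Continuous (f c)) :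
    EB H (fun c => ∫ t in a..b, f c t) = ∫ t in a..b, EB H (fun c => f c t) := by
  unfold EB
  rw [intervalIntegral.integral_div, intervalIntegral.integral_finsetSum]
  intro c _
  exact (hf c).intervalIntegrable _ _

theorem EB_integral_le (H : ℕ) {a b K : ℝ} (hab : a ≤ b) (f : (ι → ℤ) → ℝ → ℝ)
    (hf : ∀ c, Continuous (f c)) (h : ∀ t, a ≤ t → t ≤ b → EB H (fun c => f c t) ≤ K) :
    EB H (fun c => ∫ t in a..b, f c t) ≤ (b - a) * K := by
  rw [EB_integral H a b f hf]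
  have hc : Continuous fun t => EB H (fun c => f c t) := by
    unfold EB
    exact (continuous_finsetSum _ fun c _ => hf c).div_const _
  have h1 : ∫ t in a..b, EB H (fun c => f c t) ≤ ∫ t in a..b, K :=
    intervalIntegral.integral_mono_on hab (hc.intervalIntegrable _ _) (by simp)
      fun t ht => h t ht.1 ht.2
  rw [intervalIntegral.integral_const, smul_eq_mul] at h1
  exact h1

theorem EB_scaled (h : Fam A N B) (H y : ℕ) (hy : y ^ 4 ≤ H) (w : ℕ → ℝ) {ρ : ℝ} (hρ : 0 ≤ ρ)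
    (hw : ∀ p ∈ PR y, |w p| ≤ ρ * (4 * (p : ℝ) ^ ((1 : ℝ) / 4))) :
    EB H (fun c : ι → ℤ => WW N y w c ^ 2) ≤ ρ ^ 2 * K1 ι A := by
  rcases hρ.eq_or_lt with h0 | h0
  · have h1 : (fun c : ι → ℤ => WW N y w c ^ 2) = fun _ => 0 := by
      funext c
      have : WW N y w c = 0 := by
        unfold WW
        refine Finset.sum_eq_zero fun p hp => ?_
        have h2 := hw p hp
        rw [← h0, zero_mul] at h2
        rw [abs_nonpos_iff.1 h2, zero_mul]
      rw [this]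
      norm_num
    rw [h1, EB_const, ← h0]
    simp
  · have h1 : (fun c : ι → ℤ => WW N y w c ^ 2) =
        fun c => ρ ^ 2 * WW N y (fun p => ρ⁻¹ * w p) c ^ 2 := by
      funext c
      have : WW N y (fun p => ρ⁻¹ * w p) c = ρ⁻¹ * WW N y w c := by
        unfold WW
        rw [Finset.mul_sum]
        exact Finset.sum_congr rfl fun p _ => by ring
      rw [this]
      field_simp
    rw [h1, EB_mul]
    refine mul_le_mul_of_nonneg_left (h.EB_WW_sq H y hy _ fun p hp => ?_) (by positivity)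
    rw [abs_mul, abs_of_pos (inv_pos.2 h0), inv_mul_le_iff₀ h0]
    exact hw p hp

/-- the majorant of a supremum over heights -/
noncomputable def inn (N : ∀ p : ℕ, (ι → ZMod p) → ℝ) (y : ℕ) (T : ℝ) (w w' : ℝ → ℕ → ℝ)
    (c : ι → ℤ) : ℝ :=
  WW N y (w 0) c ^ 2 + ∫ t in (-T)..T, (WW N y (w t) c ^ 2 + WW N y (w' t) c ^ 2)

theorem WW_cont {X : Type} [TopologicalSpace X] (y : ℕ) (w : X → ℕ → ℝ)
    (hw : ∀ p ∈ PR y, Continuous fun t => w t p) (c : ι → ℤ) : Continuous fun t => WW N y (w t) c := by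
  unfold WW
  exact continuous_finsetSum _ fun p hp => (hw p hp).mul continuous_const

theorem WW_deriv (y : ℕ) (w w' : ℝ → ℕ → ℝ)
    (hw : ∀ p ∈ PR y, ∀ t, HasDerivAt (fun t => w t p) (w' t p) t) (c : ι → ℤ) (t : ℝ) :
    HasDerivAt (fun t => WW N y (w t) c) (WW N y (w' t) c) t := by
  unfold WW
  exact HasDerivAt.fun_sum fun p hp => (hw p hp t).mul_const _

theorem inn_sup (y : ℕ) {T τ : ℝ} (hτ : |τ| ≤ T) (w w' : ℝ → ℕ → ℝ)
    (hw : ∀ p ∈ PR y, ∀ t, HasDerivAt (fun t => w t p) (w' t p) t)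
    (hw' : ∀ p ∈ PR y, Continuous fun t => w' t p) (c : ι → ℤ) :
    WW N y (w τ) c ^ 2 ≤ inn N y T w w' c := by
  have hT : 0 ≤ T := (abs_nonneg τ).trans hτ
  obtain ⟨h1, h2⟩ := abs_le.1 hτ
  exact sup_one (WW_deriv y w w' hw c) (WW_cont y w' hw' c) (by linarith) hT h1 h2

theorem EB_inn (h : Fam A N B) (H y : ℕ) (hy : y ^ 4 ≤ H) {T : ℝ} (hT : 0 ≤ T) (w w' : ℝ → ℕ → ℝ)
    {ρ : ℝ} (hρ : 0 ≤ ρ)
    (hb : ∀ t, ∀ p ∈ PR y, |w t p| ≤ ρ * (4 * (p : ℝ) ^ ((1 : ℝ) / 4)))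
    (hb' : ∀ t, ∀ p ∈ PR y, |w' t p| ≤ ρ * (4 * (p : ℝ) ^ ((1 : ℝ) / 4)))
    (hw : ∀ p ∈ PR y, Continuous fun t => w t p)
    (hw' : ∀ p ∈ PR y, Continuous fun t => w' t p) :
    EB H (fun c : ι → ℤ => inn N y T w w' c) ≤ (1 + 4 * T) * (ρ ^ 2 * K1 ι A) := by
  unfold inn
  rw [EB_add]
  have h1 := EB_scaled h H y hy (w 0) hρ (hb 0)
  have h2 := EB_integral_le H (a := -T) (b := T) (K := 2 * (ρ ^ 2 * K1 ι A)) (by linarith)
    (fun c t => WW N y (w t) c ^ 2 + WW N y (w' t) c ^ 2)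
    (fun c => ((WW_cont y w hw c).pow 2).add ((WW_cont y w' hw' c).pow 2)) (fun t _ _ => by
      rw [EB_add]
      have e1 := EB_scaled h H y hy (w t) hρ (hb t)
      have e2 := EB_scaled h H y hy (w' t) hρ (hb' t)
      linarith)
  linarith

end

end Pool.Agent.X280.HL
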